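import Pool.Agent.Q30.FK.Stm2

/-!
# Formulas for the basic cochains
-/

namespace Q23.FK

open Q30.FK

variable {k : Type} [Field k] [CharP k 2]

/-! ### Homogeneous cochains -/

theorem hom_ext {n : ℕ} {F G : Ch k} (hF : Hom n F) (hG : Hom n G)
    (h : ∀ (X : Alg k) (g : ℕ → Bor X), F.1 X n g = G.1 X n g) : F = G := by
  refine ch_ext (fun X m g => ?_)
  by_cases hm : m = n
  · subst hm
    exact h X g
  · rw [hF X m g hm, hG X m g hm]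

theorem hom_mul_apply {m n : ℕ} {F G : Ch k} (hF : Hom m F) (X : Alg k)
    (g : ℕ → Bor X) : (F * G).1 X (m + n) g = F.1 X m g * G.1 X n (Ser.sh m g) := by
  rw [coe_mul_apply, Finset.sum_eq_single (m, n)]
  · rintro ⟨a, b⟩ hp hne
    rw [Finset.HasAntidiagonal.mem_antidiagonal] at hp
    rw [hF X a g, zero_mul]
    rintro rfl
    apply hne
    simp only at hp
    rw [Prod.mk.injEq]
    exact ⟨rfl, by omega⟩
  · intro h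
    exact absurd (Finset.HasAntidiagonal.mem_antidiagonal.mpr (rfl : m + n = m + n)) h

theorem hom_cup1_apply {m n : ℕ} {F G : Ch k} (hF : Hom m F) (X : Alg k)
    (g : ℕ → Bor X) : (cup1 F G).1 X (m + n) g =
      ∑ i ∈ Finset.range m, F.1 X m (Ser.cut i n g) * G.1 X (n + 1) (Ser.sh i g) := by
  rw [cup1_apply, Finset.sum_eq_single (m, n)]
  · rintro ⟨a, b⟩ hp hne
    rw [Finset.HasAntidiagonal.mem_antidiagonal] at hp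
    refine Finset.sum_eq_zero (fun i _ => ?_)
    rw [hF X a, zero_mul]
    rintro rfl
    apply hne
    simp only at hp
    rw [Prod.mk.injEq]
    exact ⟨rfl, by omega⟩
  · intro h
    exact absurd (Finset.HasAntidiagonal.mem_antidiagonal.mpr (rfl : m + n = m + n)) h

/-! ### Semi-invariant cochains -/

/-- The left translations multiply the cochain by a function of the group element. -/
def Semi (χ : ∀ X : Alg k, Bor X → X.A) (F : Ch k) : Prop :=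
  ∀ (X : Alg k) (h : Bor X) (n : ℕ) (g : ℕ → Bor X),
    F.1 X n (fun i => h * g i) = χ X h * F.1 X n g

variable {χ ψ : ∀ X : Alg k, Bor X → X.A} {F G : Ch k}

theorem Semi.hom {n : ℕ} (hF : Hom n F)
    (h : ∀ (X : Alg k) (h : Bor X) (g : ℕ → Bor X),
      F.1 X n (fun i => h * g i) = χ X h * F.1 X n g) : Semi χ F := by
  intro X a m g
  by_cases hm : m = n
  · subst hm
    exact h X a g
  · rw [hF X m _ hm, hF X m _ hm, mul_zero]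

theorem Semi.mul (hF : Semi χ F) (hG : Semi ψ G) : Semi (fun X h => χ X h * ψ X h) (F * G) := by
  intro X a n g
  rw [coe_mul_apply, coe_mul_apply, Finset.mul_sum]
  refine Finset.sum_congr rfl (fun p _ => ?_)
  have h2 : G.1 X p.2 (Ser.sh p.1 (fun i => a * g i)) = ψ X a * G.1 X p.2 (Ser.sh p.1 g) :=
    hG X a p.2 (Ser.sh p.1 g)
  rw [hF X a, h2]
  ring

theorem Semi.add (hF : Semi χ F) (hG : Semi χ G) : Semi χ (F + G) := by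
  intro X a n g
  rw [coe_add_apply, coe_add_apply, hF X a, hG X a, mul_add]

theorem Semi.dCh (hF : Semi χ F) : Semi χ (dCh F) := by
  intro X a n g
  cases n with
  | zero => exact (mul_zero _).symm
  | succ n =>
    rw [dCh_succ, dCh_succ, Finset.mul_sum]
    refine Finset.sum_congr rfl (fun l _ => ?_)
    have e1 : Ser.skip l (fun i => a * g i) = fun j => a * Ser.skip l g j := by
      funext j
      unfold Ser.skip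
      split_ifs <;> rfl
    rw [e1, hF X a]

theorem Semi.cup1 (hF : Semi χ F) (hG : Semi ψ G) :
    Semi (fun X h => χ X h * ψ X h) (cup1 F G) := by
  intro X a n g
  rw [cup1_apply, cup1_apply, Finset.mul_sum]
  refine Finset.sum_congr rfl (fun p _ => ?_)
  rw [Finset.mul_sum]
  refine Finset.sum_congr rfl (fun i _ => ?_)
  have e1 : Ser.cut i p.2 (fun i => a * g i) = fun j => a * Ser.cut i p.2 g j := by
    funext j
    unfold Ser.cut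
    split_ifs <;> rfl
  have h2 : G.1 X (p.2 + 1) (Ser.sh i (fun i => a * g i)) =
      ψ X a * G.1 X (p.2 + 1) (Ser.sh i g) := hG X a (p.2 + 1) (Ser.sh i g)
  rw [e1, hF X a, h2]
  ring

theorem Semi.sq (hF : Semi χ F) : Semi (fun X h => χ X h * χ X h) (sq F) :=
  (hF.mul hF).add (hF.cup1 hF.dCh)

theorem Semi.pow (hF : Semi χ F) (m : ℕ) : Semi (fun X h => χ X h ^ m) (F ^ m) := by
  induction m with
  | zero =>
    intro X a n g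
    simp only [pow_zero, one_mul]
    rfl
  | succ m ih =>
    intro X a n g
    rw [pow_succ F, (ih.mul hF) X a n g]
    dsimp only
    rw [pow_succ]

theorem Semi.congr (hF : Semi χ F) (h : ∀ X a, χ X a = ψ X a) : Semi ψ F := by
  intro X a n g
  rw [hF X a, h]

theorem Semi.mem (hF : Semi χ F) {E : ∀ X : Alg k, Set (Bor X)}
    (h : ∀ X, ∀ a ∈ E X, χ X a = 1) : F ∈ Q30.FK.inv k E := by
  intro X a ha n g
  rw [hF X a, h X a ha, one_mul]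

theorem wa_six {X : Alg k} {a : Bor X} (ha : a ∈ En k 6 X) : wa a = 1 := by
  obtain ⟨h0, h1, h2⟩ := ha
  unfold wa
  rw [h0, h1, one_pow, mul_one]

theorem wb_six {X : Alg k} {a : Bor X} (ha : a ∈ En k 6 X) : wb a = 1 := by
  obtain ⟨h0, h1, h2⟩ := ha
  unfold wb
  rw [h1, h2, one_pow, mul_one]

/-! ### Evaluation -/

theorem fa_apply (X : Alg k) (g : ℕ → Bor X) : (fa k).1 X 0 g = ca (g 0) := rfl
theorem fb_apply (X : Alg k) (g : ℕ → Bor X) : (fb k).1 X 0 g = cb (g 0) := rfl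
theorem fc_apply (X : Alg k) (g : ℕ → Bor X) : (Q30.FK.fc k).1 X 0 g = cc (g 0) := rfl

theorem hom_fa : Hom 0 (fa k) := hom_fnN _ _ _ _
theorem hom_fb : Hom 0 (fb k) := hom_fnN _ _ _ _
theorem hom_fc : Hom 0 (Q30.FK.fc k) := hom_fnN _ _ _ _

theorem sqr_add (X : Alg k) (x y : X.A) : (x + y) ^ 2 = x ^ 2 + y ^ 2 := by
  linear_combination (x * y) * two_zero X

theorem d0_apply (F : Ch k) (X : Alg k) (g : ℕ → Bor X) :
    (dCh F).1 X 1 g = F.1 X 0 (Ser.skip 0 g) + F.1 X 0 (Ser.skip 1 g) := by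
  rw [dCh_succ, Finset.sum_range_succ, Finset.sum_range_one]

theorem sq0_apply {F : Ch k} (hF : Hom 0 F) (X : Alg k) (g : ℕ → Bor X) :
    (F * F).1 X 0 g = F.1 X 0 g ^ 2 := by
  have h := hom_mul_apply (n := 0) (G := F) hF X g
  rw [add_zero] at h
  rw [h, Ser.sh_zero, pow_two]

theorem hom_sq0 {F : Ch k} (hF : Hom 0 F) : Hom 0 (F * F) := hF.mul hF

theorem dfa_apply (X : Alg k) (g : ℕ → Bor X) : (dCh (fa k)).1 X 1 g = pa g 0 := by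
  rw [d0_apply, fa_apply, fa_apply, add_comm]
  rfl

theorem dfb_apply (X : Alg k) (g : ℕ → Bor X) : (dCh (fb k)).1 X 1 g = pb g 0 := by
  rw [d0_apply, fb_apply, fb_apply, add_comm]
  rfl

theorem dfc_apply (X : Alg k) (g : ℕ → Bor X) :
    (dCh (Q30.FK.fc k)).1 X 1 g = cc (g 0) + cc (g 1) := by
  rw [d0_apply, fc_apply, fc_apply, add_comm]
  rfl

theorem dfa2_apply (X : Alg k) (g : ℕ → Bor X) :
    (dCh (fa k * fa k)).1 X 1 g = pa g 0 ^ 2 := by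
  rw [d0_apply, sq0_apply hom_fa, sq0_apply hom_fa, fa_apply, fa_apply, add_comm,
    ← sqr_add]
  rfl

theorem dfb2_apply (X : Alg k) (g : ℕ → Bor X) :
    (dCh (fb k * fb k)).1 X 1 g = pb g 0 ^ 2 := by
  rw [d0_apply, sq0_apply hom_fb, sq0_apply hom_fb, fb_apply, fb_apply, add_comm,
    ← sqr_add]
  rfl

theorem dfc2_apply (X : Alg k) (g : ℕ → Bor X) :
    (dCh (Q30.FK.fc k * Q30.FK.fc k)).1 X 1 g = (cc (g 0) + cc (g 1)) ^ 2 := by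
  rw [d0_apply, sq0_apply hom_fc, sq0_apply hom_fc, fc_apply, fc_apply, add_comm,
    ← sqr_add]
  rfl

theorem hom_dfa : Hom 1 (dCh (fa k)) := hom_fa.dCh
theorem hom_dfb : Hom 1 (dCh (fb k)) := hom_fb.dCh
theorem hom_dfc : Hom 1 (dCh (Q30.FK.fc k)) := hom_fc.dCh
theorem hom_dfa2 : Hom 1 (dCh (fa k * fa k)) := (hom_sq0 hom_fa).dCh
theorem hom_dfb2 : Hom 1 (dCh (fb k * fb k)) := (hom_sq0 hom_fb).dCh
theorem hom_dfc2 : Hom 1 (dCh (Q30.FK.fc k * Q30.FK.fc k)) := (hom_sq0 hom_fc).dCh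

theorem pa_mul {X : Alg k} (h : Bor X) (g : ℕ → Bor X) (i : ℕ) :
    pa (fun j => h * g j) i = wa h * pa g i := by
  unfold pa
  rw [ca_mul, ca_mul]
  linear_combination (ca h) * two_zero X

theorem pb_mul {X : Alg k} (h : Bor X) (g : ℕ → Bor X) (i : ℕ) :
    pb (fun j => h * g j) i = wb h * pb g i := by
  unfold pb
  rw [cb_mul, cb_mul]
  linear_combination (cb h) * two_zero X

theorem semi_dfa : Semi (fun _ h => wa h) (dCh (fa k)) :=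
  Semi.hom hom_dfa (fun X h g => by rw [dfa_apply, dfa_apply, pa_mul])

theorem semi_dfb : Semi (fun _ h => wb h) (dCh (fb k)) :=
  Semi.hom hom_dfb (fun X h g => by rw [dfb_apply, dfb_apply, pb_mul])

theorem semi_dfa2 : Semi (fun _ h => wa h ^ 2) (dCh (fa k * fa k)) :=
  Semi.hom hom_dfa2 (fun X h g => by rw [dfa2_apply, dfa2_apply, pa_mul, mul_pow])

theorem semi_dfb2 : Semi (fun _ h => wb h ^ 2) (dCh (fb k * fb k)) :=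
  Semi.hom hom_dfb2 (fun X h g => by rw [dfb2_apply, dfb2_apply, pb_mul, mul_pow])

theorem hom_gam : Hom 1 (gam k) := by
  have h : Hom (0 + 1) (fa k * dCh (fb k)) := hom_fa.mul hom_dfb
  exact hom_dfc.add h

theorem hom_gam' : Hom 1 (gam' k) := by
  have h : Hom (0 + 1) (fa k * fa k * dCh (fb k * fb k)) := (hom_sq0 hom_fa).mul hom_dfb2
  exact hom_dfc2.add h

theorem gam_apply (X : Alg k) (g : ℕ → Bor X) :
    (gam k).1 X 1 g = cc (g 0) + cc (g 1) + ca (g 0) * pb g 0 := by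
  unfold gam
  have h := hom_mul_apply (n := 1) (G := dCh (fb k)) hom_fa X g
  rw [zero_add] at h
  rw [coe_add_apply, dfc_apply, h, fa_apply, dfb_apply, Ser.sh_zero]

theorem gam'_apply (X : Alg k) (g : ℕ → Bor X) :
    (gam' k).1 X 1 g = (cc (g 0) + cc (g 1) + ca (g 0) * pb g 0) ^ 2 := by
  unfold gam'
  have h := hom_mul_apply (n := 1) (G := dCh (fb k * fb k)) (hom_sq0 hom_fa) X g
  rw [zero_add] at h
  rw [coe_add_apply, dfc2_apply, h, sq0_apply hom_fa, fa_apply, dfb2_apply, Ser.sh_zero,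
    sqr_add X (cc (g 0) + cc (g 1)), mul_pow]

theorem gam_aux {X : Alg k} (h : Bor X) (g : ℕ → Bor X) :
    cc (h * g 0) + cc (h * g 1) + ca (h * g 0) * pb (fun j => h * g j) 0 =
      wa h * wb h * (cc (g 0) + cc (g 1) + ca (g 0) * pb g 0) := by
  rw [pb_mul, ca_mul, cc_mul, cc_mul]
  unfold pb
  linear_combination (cc h + ca h * wb h * (cb (g 0) + cb (g (0 + 1)))) * two_zero X

theorem semi_gam : Semi (fun _ h => wa h * wb h) (gam k) :=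
  Semi.hom hom_gam (fun X h g => by rw [gam_apply, gam_apply, gam_aux])

theorem semi_gam' : Semi (fun _ h => (wa h * wb h) ^ 2) (gam' k) :=
  Semi.hom hom_gam' (fun X h g => by rw [gam'_apply, gam'_apply, gam_aux, mul_pow])

/-! ### Differentials -/

theorem two_ch (F : Ch k) : 2 * F = 0 := by
  rw [two_mul, ch_add_self]

theorem dgam : dCh (gam k) = dCh (fa k) * dCh (fb k) := by
  unfold gam
  rw [map_add, dCh_dCh, leibCh, dCh_dCh, mul_zero, add_zero, zero_add]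

theorem dgam' : dCh (gam' k) = dCh (fa k * fa k) * dCh (fb k * fb k) := by
  unfold gam'
  rw [map_add, dCh_dCh, leibCh, dCh_dCh, mul_zero, add_zero, zero_add]

theorem d_sq (F : Ch k) : dCh (Q30.FK.sq F) = cup1 (dCh F) (dCh F) := by
  unfold Q30.FK.sq
  have h := homotopyCh F (dCh F)
  rw [dCh_dCh, cup1_zero_right, add_zero] at h
  rw [map_add, leibCh]
  have h2 : dCh (cup1 F (dCh F)) = F * dCh F + dCh F * F + cup1 (dCh F) (dCh F) := by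
    rw [h, add_assoc, ch_add_self, add_zero]
  rw [h2]
  have e1 := ch_add_self (dCh F * F)
  have e2 := ch_add_self (F * dCh F)
  calc dCh F * F + F * dCh F + (F * dCh F + dCh F * F + cup1 (dCh F) (dCh F))
      = (dCh F * F + dCh F * F) + (F * dCh F + F * dCh F) + cup1 (dCh F) (dCh F) := by abel
    _ = cup1 (dCh F) (dCh F) := by rw [e1, e2, add_zero, zero_add]

theorem hom_dgam : Hom 2 (dCh (gam k)) := hom_gam.dCh
theorem hom_dgam' : Hom 2 (dCh (gam' k)) := hom_gam'.dCh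

theorem pa_sh {X : Alg k} (g : ℕ → Bor X) (i j : ℕ) : pa (Ser.sh i g) j = pa g (j + i) := by
  unfold pa Ser.sh
  rw [add_right_comm]

theorem pb_sh {X : Alg k} (g : ℕ → Bor X) (i j : ℕ) : pb (Ser.sh i g) j = pb g (j + i) := by
  unfold pb Ser.sh
  rw [add_right_comm]

theorem dgam_apply (X : Alg k) (g : ℕ → Bor X) :
    (dCh (gam k)).1 X 2 g = pa g 0 * pb g 1 := by
  rw [dgam]
  have h := hom_mul_apply (n := 1) (G := dCh (fb k)) hom_dfa X g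
  rw [show 1 + 1 = 2 from rfl] at h
  rw [h, dfa_apply, dfb_apply, pb_sh]

theorem dgam'_apply (X : Alg k) (g : ℕ → Bor X) :
    (dCh (gam' k)).1 X 2 g = pa g 0 ^ 2 * pb g 1 ^ 2 := by
  rw [dgam']
  have h := hom_mul_apply (n := 1) (G := dCh (fb k * fb k)) hom_dfa2 X g
  rw [show 1 + 1 = 2 from rfl] at h
  rw [h, dfa2_apply, dfb2_apply, pb_sh]

theorem pa_add {X : Alg k} (x y z : Bor X) : ca x + ca z = (ca x + ca y) + (ca y + ca z) := by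
  linear_combination (-ca y) * two_zero X

theorem pb_add {X : Alg k} (x y z : Bor X) : cb x + cb z = (cb x + cb y) + (cb y + cb z) := by
  linear_combination (-cb y) * two_zero X

theorem pa_four {X : Alg k} (g : ℕ → Bor X) (i : ℕ) : pa g i ^ 4 = 0 := by
  unfold pa
  rw [add_pow_four, ca_four, ca_four, add_zero]

theorem pb_four {X : Alg k} (g : ℕ → Bor X) (i : ℕ) : pb g i ^ 4 = 0 := by
  unfold pb
  rw [add_pow_four, cb_four, cb_four, add_zero]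

/-- The cup-one square of a cochain of degree two in degree three. -/
theorem cup_two {F : Ch k} (hF : Hom 2 F) (X : Alg k) (g : ℕ → Bor X) :
    (cup1 F F).1 X 3 g = F.1 X 2 (Ser.cut 0 1 g) * F.1 X 2 g +
      F.1 X 2 (Ser.cut 1 1 g) * F.1 X 2 (Ser.sh 1 g) := by
  have h := hom_cup1_apply (n := 1) (G := F) hF X g
  rw [show 2 + 1 = 3 from rfl, Finset.sum_range_succ, Finset.sum_range_one, Ser.sh_zero] at h
  exact h

/-- The cup-one square of a cochain of degree three in degree five. -/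
theorem cup_three {F : Ch k} (hF : Hom 3 F) (X : Alg k) (g : ℕ → Bor X) :
    (cup1 F F).1 X 5 g = F.1 X 3 (Ser.cut 0 2 g) * F.1 X 3 g +
      F.1 X 3 (Ser.cut 1 2 g) * F.1 X 3 (Ser.sh 1 g) +
      F.1 X 3 (Ser.cut 2 2 g) * F.1 X 3 (Ser.sh 2 g) := by
  have h := hom_cup1_apply (n := 2) (G := F) hF X g
  rw [show 3 + 2 = 5 from rfl, show 2 + 1 = 3 from rfl, Finset.sum_range_succ,
    Finset.sum_range_succ, Finset.sum_range_one, Ser.sh_zero] at h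
  exact h

theorem pa_cut01 {X : Alg k} (g : ℕ → Bor X) : pa (Ser.cut 0 1 g) 0 = pa g 0 + pa g 1 :=
  pa_add (g 0) (g 1) (g 2)
theorem pb_cut01 {X : Alg k} (g : ℕ → Bor X) : pb (Ser.cut 0 1 g) 1 = pb g 2 := rfl
theorem pa_cut11 {X : Alg k} (g : ℕ → Bor X) : pa (Ser.cut 1 1 g) 0 = pa g 0 := rfl
theorem pb_cut11 {X : Alg k} (g : ℕ → Bor X) : pb (Ser.cut 1 1 g) 1 = pb g 1 + pb g 2 :=
  pb_add (g 1) (g 2) (g 3)

theorem hom_sqgam : Hom 2 (sq (gam k)) := hom_gam.sq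

theorem hom_dsqgam : Hom 3 (dCh (sq (gam k))) := hom_sqgam.dCh

theorem dsqgam_apply (X : Alg k) (g : ℕ → Bor X) : (dCh (sq (gam k))).1 X 3 g =
    pa g 0 ^ 2 * pb g 1 * pb g 2 + pa g 0 * pa g 1 * pb g 2 ^ 2 := by
  rw [d_sq, cup_two hom_dgam, dgam_apply, dgam_apply, dgam_apply, dgam_apply, pa_sh, pb_sh,
    pa_cut01, pb_cut01, pa_cut11, pb_cut11]
  simp only [Nat.reduceAdd]
  linear_combination (pa g 0 * pa g 1 * pb g 1 * pb g 2) * two_zero X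

theorem mul3_apply {F G H : Ch k} (hF : Hom 1 F) (hG : Hom 1 G) (X : Alg k)
    (g : ℕ → Bor X) : (F * G * H).1 X 3 g =
      F.1 X 1 g * G.1 X 1 (Ser.sh 1 g) * H.1 X 1 (Ser.sh 2 g) := by
  have h := hom_mul_apply (n := 1) (G := H) (hF.mul hG) X g
  have h' := hom_mul_apply (n := 1) (G := G) hF X g
  rw [show 1 + 1 = 2 from rfl] at h h'
  rw [show 2 + 1 = 3 from rfl] at h
  rw [h, h']

theorem dsqgam : dCh (sq (gam k)) = dCh (fa k * fa k) * dCh (fb k) * dCh (fb k) +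
      dCh (fa k) * dCh (fa k) * dCh (fb k * fb k) := by
  refine hom_ext hom_dsqgam (((hom_dfa2.mul hom_dfb).mul hom_dfb).add
    ((hom_dfa.mul hom_dfa).mul hom_dfb2)) (fun X g => ?_)
  rw [coe_add_apply, dsqgam_apply, mul3_apply hom_dfa2 hom_dfb, mul3_apply hom_dfa hom_dfa,
    dfa2_apply, dfa_apply, dfb_apply, dfb_apply, dfa_apply, dfb2_apply, pa_sh, pb_sh, pb_sh]

theorem cup_dgam' : cup1 (dCh (gam' k)) (dCh (gam' k)) = 0 := by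
  refine hom_ext (n := 3) (hom_dgam'.cup1 hom_dgam') (fun X m g _ => rfl) (fun X g => ?_)
  rw [cup_two hom_dgam', dgam'_apply, dgam'_apply, dgam'_apply, dgam'_apply, pa_sh, pb_sh,
    pa_cut01, pb_cut01, pa_cut11, pb_cut11, coe_zero_apply]
  simp only [Nat.reduceAdd]
  have h1 := pa_four g 0
  have h2 := pb_four g 2
  have h3 := two_zero X
  rw [sqr_add, sqr_add]
  linear_combination (pb g 1 ^ 2 * pb g 2 ^ 2) * h1 + (pa g 0 ^ 2 * pa g 1 ^ 2) * h2 +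
    (pa g 0 ^ 2 * pa g 1 ^ 2 * pb g 1 ^ 2 * pb g 2 ^ 2) * h3

/-! ### The correction term -/

theorem hom_vv : Hom 4 (vv k) := hom_fnN _ _ _ _

theorem vv_apply (X : Alg k) (g : ℕ → Bor X) : (vv k).1 X 4 g = vpol (pa g) (pb g) := by
  unfold vv
  rw [fnN_apply, if_pos rfl]

theorem semi_vv : Semi (fun _ h => (wa h * wb h) ^ 4) (vv k) := by
  refine Semi.hom hom_vv (fun X h g => ?_)
  rw [vv_apply, vv_apply]
  unfold vpol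
  simp only [pa_mul, pb_mul]
  ring

/-- The polynomial identity for the correction term. -/
theorem vpol_id {A : Type} [CommRing A] (h2 : (2 : A) = 0) (p0 p1 p2 p3 q1 q2 q3 q4 : A)
    (hp : p0 ^ 4 = 0) (hq : q4 ^ 4 = 0) :
    (p1 ^ 2 * p2 ^ 2 * q3 ^ 3 * q4 + p1 ^ 2 * q2 * p3 ^ 2 * q4 ^ 3 +
      p1 ^ 3 * q2 ^ 2 * p3 * q4 ^ 2 + p1 * p2 ^ 3 * q3 ^ 2 * q4 ^ 2 +
      p1 ^ 3 * (p2 + p3) * q2 * q3 * q4 ^ 2 +
      (p1 ^ 3 * p2 + p1 * p2 ^ 3) * q3 * q4 * (q3 ^ 2 + q4 ^ 2) +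
      p1 ^ 2 * p2 * p3 * q2 * q3 * q4 ^ 2 +
      p1 ^ 2 * p2 * p3 * (q2 + q3) * q4 ^ 3) +
    ((p0 + p1) ^ 2 * p2 ^ 2 * q3 ^ 3 * q4 + (p0 + p1) ^ 2 * q2 * p3 ^ 2 * q4 ^ 3 +
      (p0 + p1) ^ 3 * q2 ^ 2 * p3 * q4 ^ 2 + (p0 + p1) * p2 ^ 3 * q3 ^ 2 * q4 ^ 2 +
      (p0 + p1) ^ 3 * (p2 + p3) * q2 * q3 * q4 ^ 2 +
      ((p0 + p1) ^ 3 * p2 + (p0 + p1) * p2 ^ 3) * q3 * q4 * (q3 ^ 2 + q4 ^ 2) +
      (p0 + p1) ^ 2 * p2 * p3 * q2 * q3 * q4 ^ 2 +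
      (p0 + p1) ^ 2 * p2 * p3 * (q2 + q3) * q4 ^ 3) +
    (p0 ^ 2 * (p1 + p2) ^ 2 * q3 ^ 3 * q4 + p0 ^ 2 * (q1 + q2) * p3 ^ 2 * q4 ^ 3 +
      p0 ^ 3 * (q1 + q2) ^ 2 * p3 * q4 ^ 2 + p0 * (p1 + p2) ^ 3 * q3 ^ 2 * q4 ^ 2 +
      p0 ^ 3 * ((p1 + p2) + p3) * (q1 + q2) * q3 * q4 ^ 2 +
      (p0 ^ 3 * (p1 + p2) + p0 * (p1 + p2) ^ 3) * q3 * q4 * (q3 ^ 2 + q4 ^ 2) +
      p0 ^ 2 * (p1 + p2) * p3 * (q1 + q2) * q3 * q4 ^ 2 +
      p0 ^ 2 * (p1 + p2) * p3 * ((q1 + q2) + q3) * q4 ^ 3) +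
    (p0 ^ 2 * p1 ^ 2 * (q2 + q3) ^ 3 * q4 + p0 ^ 2 * q1 * (p2 + p3) ^ 2 * q4 ^ 3 +
      p0 ^ 3 * q1 ^ 2 * (p2 + p3) * q4 ^ 2 + p0 * p1 ^ 3 * (q2 + q3) ^ 2 * q4 ^ 2 +
      p0 ^ 3 * (p1 + (p2 + p3)) * q1 * (q2 + q3) * q4 ^ 2 +
      (p0 ^ 3 * p1 + p0 * p1 ^ 3) * (q2 + q3) * q4 * ((q2 + q3) ^ 2 + q4 ^ 2) +
      p0 ^ 2 * p1 * (p2 + p3) * q1 * (q2 + q3) * q4 ^ 2 +
      p0 ^ 2 * p1 * (p2 + p3) * (q1 + (q2 + q3)) * q4 ^ 3) +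
    (p0 ^ 2 * p1 ^ 2 * q2 ^ 3 * (q3 + q4) + p0 ^ 2 * q1 * p2 ^ 2 * (q3 + q4) ^ 3 +
      p0 ^ 3 * q1 ^ 2 * p2 * (q3 + q4) ^ 2 + p0 * p1 ^ 3 * q2 ^ 2 * (q3 + q4) ^ 2 +
      p0 ^ 3 * (p1 + p2) * q1 * q2 * (q3 + q4) ^ 2 +
      (p0 ^ 3 * p1 + p0 * p1 ^ 3) * q2 * (q3 + q4) * (q2 ^ 2 + (q3 + q4) ^ 2) +
      p0 ^ 2 * p1 * p2 * q1 * q2 * (q3 + q4) ^ 2 +
      p0 ^ 2 * p1 * p2 * (q1 + q2) * (q3 + q4) ^ 3) +
    (p0 ^ 2 * p1 ^ 2 * q2 ^ 3 * q3 + p0 ^ 2 * q1 * p2 ^ 2 * q3 ^ 3 +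
      p0 ^ 3 * q1 ^ 2 * p2 * q3 ^ 2 + p0 * p1 ^ 3 * q2 ^ 2 * q3 ^ 2 +
      p0 ^ 3 * (p1 + p2) * q1 * q2 * q3 ^ 2 +
      (p0 ^ 3 * p1 + p0 * p1 ^ 3) * q2 * q3 * (q2 ^ 2 + q3 ^ 2) +
      p0 ^ 2 * p1 * p2 * q1 * q2 * q3 ^ 2 +
      p0 ^ 2 * p1 * p2 * (q1 + q2) * q3 ^ 3) =
    ((p0 + p1 + p2) ^ 2 * q3 * q4 + (p0 + p1 + p2) * p3 * q4 ^ 2) *
      (p0 ^ 2 * q1 * q2 + p0 * p1 * q2 ^ 2) +
    (p0 ^ 2 * (q1 + q2 + q3) * q4 + p0 * (p1 + p2 + p3) * q4 ^ 2) *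
      (p1 ^ 2 * q2 * q3 + p1 * p2 * q3 ^ 2) +
    (p0 ^ 2 * q1 * (q2 + q3 + q4) + p0 * p1 * (q2 + q3 + q4) ^ 2) *
      (p2 ^ 2 * q3 * q4 + p2 * p3 * q4 ^ 2) := by
  linear_combination (-(q1 * q2 * q3 * q4)) * hp - (p0 * p1 * p2 * p3) * hq + (
      p0 ^ 3 * p1 * q1 * q2 * q3 ^ 2 + p0 ^ 3 * p1 * q1 * q2 * q4 ^ 2
      + p0 ^ 3 * p1 * q1 * q3 * q4 ^ 2 + p0 ^ 3 * p1 * q2 ^ 3 * q3 + p0 ^ 3 * p1 * q2 ^ 3 * q4
      + p0 ^ 3 * p1 * q2 ^ 2 * q3 * q4 + p0 ^ 3 * p1 * q2 * q3 ^ 3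
      + 3 * p0 ^ 3 * p1 * q2 * q3 ^ 2 * q4 + 2 * p0 ^ 3 * p1 * q2 * q3 * q4 ^ 2
      + p0 ^ 3 * p1 * q2 * q4 ^ 3 + p0 ^ 3 * p1 * q3 ^ 3 * q4 + p0 ^ 3 * p1 * q3 * q4 ^ 3
      + p0 ^ 3 * p2 * q1 ^ 2 * q3 ^ 2 + p0 ^ 3 * p2 * q1 ^ 2 * q3 * q4
      + p0 ^ 3 * p2 * q1 ^ 2 * q4 ^ 2 + p0 ^ 3 * p2 * q1 * q2 * q3 ^ 2
      + p0 ^ 3 * p2 * q1 * q2 * q4 ^ 2 + p0 ^ 3 * p2 * q1 * q3 * q4 ^ 2
      + p0 ^ 3 * p2 * q2 * q3 * q4 ^ 2 + p0 ^ 3 * p2 * q3 ^ 3 * q4 + p0 ^ 3 * p2 * q3 * q4 ^ 3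
      + p0 ^ 3 * p3 * q1 ^ 2 * q4 ^ 2 + p0 ^ 3 * p3 * q1 * q2 * q4 ^ 2
      + p0 ^ 3 * p3 * q1 * q3 * q4 ^ 2 + p0 ^ 3 * p3 * q2 ^ 2 * q4 ^ 2
      + p0 ^ 3 * p3 * q2 * q3 * q4 ^ 2 - p0 ^ 2 * p1 ^ 2 * q1 * q2 * q3 * q4
      + p0 ^ 2 * p1 ^ 2 * q2 ^ 3 * q3 + p0 ^ 2 * p1 ^ 2 * q2 ^ 3 * q4
      + p0 ^ 2 * p1 ^ 2 * q2 * q3 ^ 2 * q4 + p0 ^ 2 * p1 ^ 2 * q3 ^ 3 * q4
      + p0 ^ 2 * p1 * p2 * q1 * q2 * q3 ^ 2 + p0 ^ 2 * p1 * p2 * q1 * q2 * q4 ^ 2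
      + p0 ^ 2 * p1 * p2 * q1 * q3 ^ 3 + p0 ^ 2 * p1 * p2 * q1 * q3 ^ 2 * q4
      + 2 * p0 ^ 2 * p1 * p2 * q1 * q3 * q4 ^ 2 + p0 ^ 2 * p1 * p2 * q1 * q4 ^ 3
      - p0 ^ 2 * p1 * p2 * q2 ^ 2 * q3 * q4 + p0 ^ 2 * p1 * p2 * q2 * q3 ^ 3
      + p0 ^ 2 * p1 * p2 * q2 * q3 ^ 2 * q4 + 3 * p0 ^ 2 * p1 * p2 * q2 * q3 * q4 ^ 2
      + p0 ^ 2 * p1 * p2 * q2 * q4 ^ 3 + 2 * p0 ^ 2 * p1 * p2 * q3 ^ 3 * q4
      + 2 * p0 ^ 2 * p1 * p2 * q3 * q4 ^ 3 + p0 ^ 2 * p1 * p3 * q1 * q3 * q4 ^ 2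
      + p0 ^ 2 * p1 * p3 * q1 * q4 ^ 3 + p0 ^ 2 * p1 * p3 * q2 ^ 2 * q4 ^ 2
      + 2 * p0 ^ 2 * p1 * p3 * q2 * q3 * q4 ^ 2 + p0 ^ 2 * p1 * p3 * q2 * q4 ^ 3
      + p0 ^ 2 * p1 * p3 * q3 * q4 ^ 3 - p0 ^ 2 * p2 ^ 2 * q1 * q2 * q3 * q4
      + p0 ^ 2 * p2 ^ 2 * q1 * q3 ^ 3 + p0 ^ 2 * p2 ^ 2 * q1 * q3 ^ 2 * q4
      + p0 ^ 2 * p2 ^ 2 * q1 * q3 * q4 ^ 2 + p0 ^ 2 * p2 ^ 2 * q1 * q4 ^ 3
      + p0 ^ 2 * p2 ^ 2 * q3 ^ 3 * q4 - p0 ^ 2 * p2 * p3 * q1 * q2 * q4 ^ 2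
      + p0 ^ 2 * p2 * p3 * q1 * q4 ^ 3 + p0 ^ 2 * p2 * p3 * q2 * q3 * q4 ^ 2
      + p0 ^ 2 * p2 * p3 * q2 * q4 ^ 3 + p0 ^ 2 * p2 * p3 * q3 * q4 ^ 3
      + p0 ^ 2 * p3 ^ 2 * q1 * q4 ^ 3 + p0 ^ 2 * p3 ^ 2 * q2 * q4 ^ 3
      + p0 * p1 ^ 3 * q2 ^ 3 * q3 + p0 * p1 ^ 3 * q2 ^ 3 * q4 + p0 * p1 ^ 3 * q2 ^ 2 * q3 ^ 2
      + 2 * p0 * p1 ^ 3 * q2 ^ 2 * q3 * q4 + p0 * p1 ^ 3 * q2 ^ 2 * q4 ^ 2
      + p0 * p1 ^ 3 * q2 * q3 ^ 3 + 3 * p0 * p1 ^ 3 * q2 * q3 ^ 2 * q4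
      + 2 * p0 * p1 ^ 3 * q2 * q3 * q4 ^ 2 + p0 * p1 ^ 3 * q2 * q4 ^ 3
      + p0 * p1 ^ 3 * q3 ^ 3 * q4 + p0 * p1 ^ 3 * q3 ^ 2 * q4 ^ 2 + p0 * p1 ^ 3 * q3 * q4 ^ 3
      - p0 * p1 ^ 2 * p2 * q2 ^ 2 * q3 * q4 + p0 * p1 ^ 2 * p2 * q2 * q3 * q4 ^ 2
      + 3 * p0 * p1 ^ 2 * p2 * q3 ^ 3 * q4 + p0 * p1 ^ 2 * p2 * q3 ^ 2 * q4 ^ 2
      + 3 * p0 * p1 ^ 2 * p2 * q3 * q4 ^ 3 + p0 * p1 ^ 2 * p3 * q2 ^ 2 * q4 ^ 2
      + p0 * p1 ^ 2 * p3 * q2 * q3 * q4 ^ 2 - p0 * p1 * p2 ^ 2 * q2 ^ 2 * q3 * q4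
      - p0 * p1 * p2 ^ 2 * q2 * q3 ^ 2 * q4 - p0 * p1 * p2 ^ 2 * q2 * q3 * q4 ^ 2
      + 2 * p0 * p1 * p2 ^ 2 * q3 ^ 3 * q4 + p0 * p1 * p2 ^ 2 * q3 * q4 ^ 3
      - p0 * p1 * p2 * p3 * q2 ^ 2 * q4 ^ 2 - p0 * p1 * p2 * p3 * q3 ^ 2 * q4 ^ 2
      + p0 * p1 * p3 ^ 2 * q2 * q4 ^ 3 + p0 * p2 ^ 3 * q3 ^ 3 * q4
      + p0 * p2 ^ 3 * q3 ^ 2 * q4 ^ 2 + p0 * p2 ^ 3 * q3 * q4 ^ 3
      + p1 ^ 3 * p2 * q2 * q3 * q4 ^ 2 + p1 ^ 3 * p2 * q3 ^ 3 * q4 + p1 ^ 3 * p2 * q3 * q4 ^ 3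
      + p1 ^ 3 * p3 * q2 ^ 2 * q4 ^ 2 + p1 ^ 3 * p3 * q2 * q3 * q4 ^ 2
      + p1 ^ 2 * p2 ^ 2 * q3 ^ 3 * q4 + p1 ^ 2 * p2 * p3 * q2 * q3 * q4 ^ 2
      + p1 ^ 2 * p2 * p3 * q2 * q4 ^ 3 + p1 ^ 2 * p2 * p3 * q3 * q4 ^ 3
      + p1 ^ 2 * p3 ^ 2 * q2 * q4 ^ 3 + p1 * p2 ^ 3 * q3 ^ 3 * q4
      + p1 * p2 ^ 3 * q3 ^ 2 * q4 ^ 2 + p1 * p2 ^ 3 * q3 * q4 ^ 3) * h2

theorem vpol_skip {X : Alg k} (g : ℕ → Bor X) (l : ℕ) :
    (vv k).1 X 4 (Ser.skip l g) = vpol (pa (Ser.skip l g)) (pb (Ser.skip l g)) := vv_apply X _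

theorem pa_skip_lt {X : Alg k} (g : ℕ → Bor X) {l i : ℕ} (h : i + 1 < l) :
    pa (Ser.skip l g) i = pa g i := by
  unfold pa Ser.skip
  rw [if_pos (by omega), if_pos h]

theorem pb_skip_lt {X : Alg k} (g : ℕ → Bor X) {l i : ℕ} (h : i + 1 < l) :
    pb (Ser.skip l g) i = pb g i := by
  unfold pb Ser.skip
  rw [if_pos (by omega), if_pos h]

theorem pa_skip_eq {X : Alg k} (g : ℕ → Bor X) (i : ℕ) :
    pa (Ser.skip (i + 1) g) i = pa g i + pa g (i + 1) := by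
  unfold pa Ser.skip
  rw [if_pos (by omega), if_neg (by omega)]
  exact pa_add (g i) (g (i + 1)) (g (i + 1 + 1))

theorem pb_skip_eq {X : Alg k} (g : ℕ → Bor X) (i : ℕ) :
    pb (Ser.skip (i + 1) g) i = pb g i + pb g (i + 1) := by
  unfold pb Ser.skip
  rw [if_pos (by omega), if_neg (by omega)]
  exact pb_add (g i) (g (i + 1)) (g (i + 1 + 1))

theorem pa_skip_gt {X : Alg k} (g : ℕ → Bor X) {l i : ℕ} (h : l ≤ i) :
    pa (Ser.skip l g) i = pa g (i + 1) := by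
  unfold pa Ser.skip
  rw [if_neg (by omega), if_neg (by omega)]

theorem pb_skip_gt {X : Alg k} (g : ℕ → Bor X) {l i : ℕ} (h : l ≤ i) :
    pb (Ser.skip l g) i = pb g (i + 1) := by
  unfold pb Ser.skip
  rw [if_neg (by omega), if_neg (by omega)]

theorem pa_cut_zero {X : Alg k} (g : ℕ → Bor X) :
    pa (Ser.cut 0 2 g) 0 = pa g 0 + pa g 1 + pa g 2 := by
  have h1 : pa (Ser.cut 0 2 g) 0 = ca (g 0) + ca (g 3) := rfl
  rw [h1, pa_add (g 0) (g 2) (g 3), pa_add (g 0) (g 1) (g 2)]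
  rfl

theorem pb_cut_one {X : Alg k} (g : ℕ → Bor X) :
    pb (Ser.cut 1 2 g) 1 = pb g 1 + pb g 2 + pb g 3 := by
  have h1 : pb (Ser.cut 1 2 g) 1 = cb (g 1) + cb (g 4) := rfl
  rw [h1, pb_add (g 1) (g 3) (g 4), pb_add (g 1) (g 2) (g 3)]
  rfl

theorem pa_cut_one {X : Alg k} (g : ℕ → Bor X) :
    pa (Ser.cut 1 2 g) 1 = pa g 1 + pa g 2 + pa g 3 := by
  have h1 : pa (Ser.cut 1 2 g) 1 = ca (g 1) + ca (g 4) := rfl
  rw [h1, pa_add (g 1) (g 3) (g 4), pa_add (g 1) (g 2) (g 3)]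
  rfl

theorem pb_cut_two {X : Alg k} (g : ℕ → Bor X) :
    pb (Ser.cut 2 2 g) 2 = pb g 2 + pb g 3 + pb g 4 := by
  have h1 : pb (Ser.cut 2 2 g) 2 = cb (g 2) + cb (g 5) := rfl
  rw [h1, pb_add (g 2) (g 4) (g 5), pb_add (g 2) (g 3) (g 4)]
  rfl

theorem dvv : dCh (vv k) = cup1 (dCh (Q30.FK.sq (gam k))) (dCh (Q30.FK.sq (gam k))) := by
  refine hom_ext (n := 5) hom_vv.dCh (hom_dsqgam.cup1 hom_dsqgam) (fun X g => ?_)
  rw [cup_three hom_dsqgam]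
  simp only [dsqgam_apply, pa_sh, pb_sh]
  rw [dCh_succ]
  simp only [Finset.sum_range_succ, Finset.sum_range_zero, zero_add, vpol_skip, Nat.reduceAdd]
  unfold vpol
  have c1 : pa (Ser.cut 0 2 g) 1 = pa g 3 := rfl
  have c2 : pb (Ser.cut 0 2 g) 1 = pb g 3 := rfl
  have c3 : pb (Ser.cut 0 2 g) 2 = pb g 4 := rfl
  have c4 : pa (Ser.cut 1 2 g) 0 = pa g 0 := rfl
  have c5 : pb (Ser.cut 1 2 g) 2 = pb g 4 := rfl
  have c6 : pa (Ser.cut 2 2 g) 0 = pa g 0 := rfl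
  have c7 : pa (Ser.cut 2 2 g) 1 = pa g 1 := rfl
  have c8 : pb (Ser.cut 2 2 g) 1 = pb g 1 := rfl
  have s00 : pa (Ser.skip 0 g) 0 = pa g 1 := pa_skip_gt g (by norm_num)
  have s01 : pa (Ser.skip 0 g) 1 = pa g 2 := pa_skip_gt g (by norm_num)
  have s02 : pa (Ser.skip 0 g) 2 = pa g 3 := pa_skip_gt g (by norm_num)
  have s10 : pa (Ser.skip 1 g) 0 = pa g 0 + pa g 1 := pa_skip_eq g 0
  have s11 : pa (Ser.skip 1 g) 1 = pa g 2 := pa_skip_gt g (by norm_num)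
  have s12 : pa (Ser.skip 1 g) 2 = pa g 3 := pa_skip_gt g (by norm_num)
  have s20 : pa (Ser.skip 2 g) 0 = pa g 0 := pa_skip_lt g (by norm_num)
  have s21 : pa (Ser.skip 2 g) 1 = pa g 1 + pa g 2 := pa_skip_eq g 1
  have s22 : pa (Ser.skip 2 g) 2 = pa g 3 := pa_skip_gt g (by norm_num)
  have s30 : pa (Ser.skip 3 g) 0 = pa g 0 := pa_skip_lt g (by norm_num)
  have s31 : pa (Ser.skip 3 g) 1 = pa g 1 := pa_skip_lt g (by norm_num)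
  have s32 : pa (Ser.skip 3 g) 2 = pa g 2 + pa g 3 := pa_skip_eq g 2
  have s40 : pa (Ser.skip 4 g) 0 = pa g 0 := pa_skip_lt g (by norm_num)
  have s41 : pa (Ser.skip 4 g) 1 = pa g 1 := pa_skip_lt g (by norm_num)
  have s42 : pa (Ser.skip 4 g) 2 = pa g 2 := pa_skip_lt g (by norm_num)
  have s50 : pa (Ser.skip 5 g) 0 = pa g 0 := pa_skip_lt g (by norm_num)
  have s51 : pa (Ser.skip 5 g) 1 = pa g 1 := pa_skip_lt g (by norm_num)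
  have s52 : pa (Ser.skip 5 g) 2 = pa g 2 := pa_skip_lt g (by norm_num)
  have t01 : pb (Ser.skip 0 g) 1 = pb g 2 := pb_skip_gt g (by norm_num)
  have t02 : pb (Ser.skip 0 g) 2 = pb g 3 := pb_skip_gt g (by norm_num)
  have t03 : pb (Ser.skip 0 g) 3 = pb g 4 := pb_skip_gt g (by norm_num)
  have t11 : pb (Ser.skip 1 g) 1 = pb g 2 := pb_skip_gt g (by norm_num)
  have t12 : pb (Ser.skip 1 g) 2 = pb g 3 := pb_skip_gt g (by norm_num)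
  have t13 : pb (Ser.skip 1 g) 3 = pb g 4 := pb_skip_gt g (by norm_num)
  have t21 : pb (Ser.skip 2 g) 1 = pb g 1 + pb g 2 := pb_skip_eq g 1
  have t22 : pb (Ser.skip 2 g) 2 = pb g 3 := pb_skip_gt g (by norm_num)
  have t23 : pb (Ser.skip 2 g) 3 = pb g 4 := pb_skip_gt g (by norm_num)
  have t31 : pb (Ser.skip 3 g) 1 = pb g 1 := pb_skip_lt g (by norm_num)
  have t32 : pb (Ser.skip 3 g) 2 = pb g 2 + pb g 3 := pb_skip_eq g 2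
  have t33 : pb (Ser.skip 3 g) 3 = pb g 4 := pb_skip_gt g (by norm_num)
  have t41 : pb (Ser.skip 4 g) 1 = pb g 1 := pb_skip_lt g (by norm_num)
  have t42 : pb (Ser.skip 4 g) 2 = pb g 2 := pb_skip_lt g (by norm_num)
  have t43 : pb (Ser.skip 4 g) 3 = pb g 3 + pb g 4 := pb_skip_eq g 3
  have t51 : pb (Ser.skip 5 g) 1 = pb g 1 := pb_skip_lt g (by norm_num)
  have t52 : pb (Ser.skip 5 g) 2 = pb g 2 := pb_skip_lt g (by norm_num)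
  have t53 : pb (Ser.skip 5 g) 3 = pb g 3 := pb_skip_lt g (by norm_num)
  simp only [s00, s01, s02, s10, s11, s12, s20, s21, s22, s30, s31, s32, s40, s41, s42, s50,
    s51, s52, t01, t02, t03, t11, t12, t13, t21, t22, t23, t31, t32, t33, t41, t42, t43, t51,
    t52, t53,
    pa_cut_zero, pa_cut_one, pb_cut_one, pb_cut_two, c1, c2, c3, c4, c5, c6, c7,
    c8, Nat.reduceAdd, zero_add]
  exact vpol_id (two_zero X) (pa g 0) (pa g 1) (pa g 2) (pa g 3) (pb g 1) (pb g 2) (pb g 3)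
    (pb g 4) (pa_four g 0) (pb_four g 4)

/-! ### The six classes -/

theorem hom_mul_self {n : ℕ} {F : Ch k} (hF : Hom 1 F) : Hom n (F ^ n) := by
  have h := hF.pow n
  rw [mul_one] at h
  exact h

theorem cls_facts : P_CLS := by
  intro k _ _
  have d4 : dCh (cls k 4) = 0 := by
    change dCh (Q30.FK.sq (Q30.FK.sq (gam k)) + vv k) = 0
    rw [map_add, d_sq, dvv, ch_add_self]
  have d5 : dCh (cls k 5) = 0 := by
    change dCh (Q30.FK.sq (gam' k)) = 0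
    rw [d_sq, cup_dgam']
  have w4 : ∀ (X : Alg k) (h : Bor X), (wa h * wb h) ^ 4 = 1 := by
    intro X h
    rw [mul_pow, wa_four, wb_four, one_mul]
  refine ⟨?_, semi_gam.mem (fun X a ha => by rw [wa_six ha, wb_six ha, one_mul]),
    semi_gam'.mem (fun X a ha => by rw [wa_six ha, wb_six ha, one_mul, one_pow]),
    semi_gam.sq.mem (fun X a ha => by simp only [wa_six ha, wb_six ha, one_mul]),
    semi_dfa.mem (fun X a ha => wa_six ha),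
    semi_dfa2.mem (fun X a ha => by rw [wa_six ha, one_pow]),
    semi_dfb.mem (fun X a ha => wb_six ha),
    semi_dfb2.mem (fun X a ha => by rw [wb_six ha, one_pow]),
    dgam, dgam', dsqgam, cup_dgam', dvv⟩
  intro i
  fin_cases i
  · refine ⟨(semi_dfa.pow 4).mem (fun X a _ => wa_four a), dCh_pow (dCh_dCh _) 4, ?_⟩
    exact hom_mul_self hom_dfa
  · refine ⟨(semi_dfa2.pow 2).mem (fun X a _ => ?_), dCh_pow (dCh_dCh _) 2, ?_⟩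
    · rw [← pow_mul]
      exact wa_four a
    · exact hom_mul_self hom_dfa2
  · refine ⟨(semi_dfb.pow 4).mem (fun X a _ => wb_four a), dCh_pow (dCh_dCh _) 4, ?_⟩
    exact hom_mul_self hom_dfb
  · refine ⟨(semi_dfb2.pow 2).mem (fun X a _ => ?_), dCh_pow (dCh_dCh _) 2, ?_⟩
    · rw [← pow_mul]
      exact wb_four a
    · exact hom_mul_self hom_dfb2
  · refine ⟨((semi_gam.sq.sq.congr (ψ := fun _ h => (wa h * wb h) ^ 4) (fun X a => ?_)).add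
      semi_vv).mem (fun X a _ => w4 X a), d4, ?_⟩
    · ring
    · exact hom_sqgam.sq.add hom_vv
  · refine ⟨semi_gam'.sq.mem (fun X a _ => ?_), d5, ?_⟩
    · have := w4 X a
      linear_combination this
    · exact hom_gam'.sq

end Q23.FK
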