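import Mathlib
import Pool.Agent.Q30.FK.Stm

/-!
# Job LOC and job NAK of the project on the reduced cohomology of Frobenius kernels
-/

set_option autoImplicit false

universe u

namespace Q23.FK

open MvPolynomial Q30.FK

section basics

variable {H : Type u} [CommRing H] (C : Comp H)

/-- Powers of a homogeneous element. -/
theorem pow_hom (h1 : C.pr 0 1 = 1) {n : ℕ} {x : H} (hx : C.pr n x = x) (i : ℕ) :
    C.pr (n * i) (x ^ i) = x ^ i := by
  induction i with
  | zero => simpa using h1
  | succ i ih =>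
      have := C.mul (n * i) n (x ^ i) x ih
      rw [pow_succ, Nat.mul_succ, this, hx]

theorem pr_mul_ge {m n : ℕ} {x : H} (hx : C.pr m x = x) (h : m ≤ n) (y : H) :
    C.pr n (x * y) = x * C.pr (n - m) y := by
  have := C.mul m (n - m) x y hx
  rwa [Nat.add_sub_cancel' h] at this

end basics

section P

variable {k : Type} [Field k] {H : Type u} [CommRing H] [Algebra (MvPolynomial (Fin 6) k) H]
  (C : Comp H) (e : Fin 6 → ℕ)

theorem pr_zero_one
    (h0 : ∀ c : k, C.pr 0 (algebraMap (MvPolynomial (Fin 6) k) H (MvPolynomial.C c)) =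
      algebraMap (MvPolynomial (Fin 6) k) H (MvPolynomial.C c)) : C.pr 0 1 = 1 := by
  have := h0 1
  simpa using this

/-- The components of positive degree of the images of polynomials are in the ideal generated by
the images of the variables. -/
theorem pr_algebraMap_mem
    (he : ∀ i, 0 < e i)
    (hX : ∀ i, C.pr (e i) (algebraMap (MvPolynomial (Fin 6) k) H (X i)) =
      algebraMap (MvPolynomial (Fin 6) k) H (X i))
    (h0 : ∀ c : k, C.pr 0 (algebraMap (MvPolynomial (Fin 6) k) H (MvPolynomial.C c)) =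
      algebraMap (MvPolynomial (Fin 6) k) H (MvPolynomial.C c))
    (U : Ideal H) (hU : ∀ i, algebraMap (MvPolynomial (Fin 6) k) H (X i) ∈ U)
    (p : MvPolynomial (Fin 6) k) :
    ∀ n, 0 < n → C.pr n (algebraMap (MvPolynomial (Fin 6) k) H p) ∈ U := by
  induction p using MvPolynomial.induction_on with
  | C a =>
      intro n hn
      rw [← h0 a, C.idem, if_neg (by omega)]
      exact U.zero_mem
  | add p q hp hq =>
      intro n hn
      rw [map_add, map_add]
      exact U.add_mem (hp n hn) (hq n hn)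
  | mul_X p i hp =>
      intro n hn
      rw [map_mul, mul_comm]
      by_cases h : e i ≤ n
      · rw [pr_mul_ge C (hX i) h]
        exact U.mul_mem_right _ (hU i)
      · rw [C.mul_lt _ _ _ _ (hX i) (by omega)]
        exact U.zero_mem

end P

/-- Every homogeneous element of positive degree lies in every prime ideal over the origin. -/
theorem hom_mem {k : Type} [Field k] {H : Type u} [CommRing H]
    [Algebra (MvPolynomial (Fin 6) k) H] [Module.Finite (MvPolynomial (Fin 6) k) H]
    (C : Comp H) (e : Fin 6 → ℕ)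
    (he : ∀ i, 0 < e i)
    (hX : ∀ i, C.pr (e i) (algebraMap (MvPolynomial (Fin 6) k) H (X i)) =
      algebraMap (MvPolynomial (Fin 6) k) H (X i))
    (h0 : ∀ c : k, C.pr 0 (algebraMap (MvPolynomial (Fin 6) k) H (MvPolynomial.C c)) =
      algebraMap (MvPolynomial (Fin 6) k) H (MvPolynomial.C c))
    (q : Ideal H) [q.IsPrime] (hq : ∀ i, algebraMap (MvPolynomial (Fin 6) k) H (X i) ∈ q)
    {n : ℕ} (hn : 0 < n) {x : H} (hx : C.pr n x = x) : x ∈ q := by
  obtain ⟨g, hg, hgx⟩ := Algebra.IsIntegral.isIntegral (R := MvPolynomial (Fin 6) k) x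
  have h1 := pr_zero_one C h0
  have hpow := fun i => pow_hom C h1 hx i
  set d := g.natDegree with hd
  rw [Polynomial.eval₂_eq_sum_range, Finset.sum_range_succ, ← hd] at hgx
  have hlead : g.coeff d = 1 := hg
  rw [hlead, map_one, one_mul] at hgx
  have hcomp := congrArg (C.pr (n * d)) hgx
  rw [map_add, map_zero, map_sum, hpow d] at hcomp
  have hmem : ∑ i ∈ Finset.range d, C.pr (n * d)
      (algebraMap (MvPolynomial (Fin 6) k) H (g.coeff i) * x ^ i) ∈ q := by
    refine q.sum_mem fun i hi => ?_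
    rw [Finset.mem_range] at hi
    have hle : n * i ≤ n * d := Nat.mul_le_mul_left _ hi.le
    rw [mul_comm (algebraMap _ _ _) (x ^ i), pr_mul_ge C (hpow i) hle]
    refine q.mul_mem_left _ (pr_algebraMap_mem C e he hX h0 q hq _ _ ?_)
    have : n * i < n * d := Nat.mul_lt_mul_of_pos_left hi hn
    omega
  have hxd : x ^ d ∈ q := by
    have : x ^ d = -∑ i ∈ Finset.range d, C.pr (n * d)
      (algebraMap (MvPolynomial (Fin 6) k) H (g.coeff i) * x ^ i) := by
      rw [eq_neg_iff_add_eq_zero, add_comm]; exact hcomp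
    rw [this]
    exact q.neg_mem hmem
  exact Ideal.IsPrime.mem_of_pow_mem inferInstance d hxd

theorem le_of_origin {k : Type} [Field k] {H : Type u} [CommRing H]
    [Algebra (MvPolynomial (Fin 6) k) H] [Module.Finite (MvPolynomial (Fin 6) k) H]
    (C : Comp H) (e : Fin 6 → ℕ)
    (he : ∀ i, 0 < e i)
    (hX : ∀ i, C.pr (e i) (algebraMap (MvPolynomial (Fin 6) k) H (X i)) =
      algebraMap (MvPolynomial (Fin 6) k) H (X i))
    (h0 : ∀ c : k, C.pr 0 (algebraMap (MvPolynomial (Fin 6) k) H (MvPolynomial.C c)) =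
      algebraMap (MvPolynomial (Fin 6) k) H (MvPolynomial.C c))
    (hc : ∀ x, C.pr 0 x = x →
      ∃ c : k, x = algebraMap (MvPolynomial (Fin 6) k) H (MvPolynomial.C c))
    (m m' : Ideal H) [m.IsPrime] [m'.IsPrime]
    (hm : ∀ i, algebraMap (MvPolynomial (Fin 6) k) H (X i) ∈ m)
    (hm' : ∀ i, algebraMap (MvPolynomial (Fin 6) k) H (X i) ∈ m') : m ≤ m' := by
  intro x hx
  have hidem : ∀ n, C.pr n (C.pr n x) = C.pr n x := fun n => by rw [C.idem, if_pos rfl]
  obtain ⟨N, hN⟩ := C.sum x
  obtain ⟨c, hcx⟩ := hc (C.pr 0 x) (hidem 0)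
  have hN' : x = ∑ n ∈ Finset.range (N + 1), C.pr n x := by
    have hz : C.pr N x = 0 := by
      conv_lhs => rw [hN]
      rw [map_sum]
      refine Finset.sum_eq_zero fun i hi => ?_
      rw [Finset.mem_range] at hi
      rw [C.idem, if_neg (by omega)]
    rw [Finset.sum_range_succ, ← hN, hz, add_zero]
  rw [Finset.sum_range_succ'] at hN'
  have hpos : ∀ n, C.pr (n + 1) x ∈ m ∧ C.pr (n + 1) x ∈ m' := fun n =>
    ⟨hom_mem C e he hX h0 m hm (Nat.succ_pos n) (hidem _),
      hom_mem C e he hX h0 m' hm' (Nat.succ_pos n) (hidem _)⟩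
  have hs : ∑ n ∈ Finset.range N, C.pr (n + 1) x ∈ m := m.sum_mem fun n _ => (hpos n).1
  have hs' : ∑ n ∈ Finset.range N, C.pr (n + 1) x ∈ m' := m'.sum_mem fun n _ => (hpos n).2
  have h0m : C.pr 0 x ∈ m := by
    have : C.pr 0 x = x - ∑ n ∈ Finset.range N, C.pr (n + 1) x := by
      rw [eq_sub_iff_add_eq, add_comm]; exact hN'.symm
    rw [this]
    exact m.sub_mem hx hs
  have hc0 : c = 0 := by
    by_contra hne
    apply (inferInstance : m.IsPrime).ne_top
    refine Ideal.eq_top_of_isUnit_mem m h0m ?_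
    rw [hcx]
    exact ((isUnit_iff_ne_zero.mpr hne).map (MvPolynomial.C (σ := Fin 6))).map _
  rw [hN', hcx, hc0, map_zero, map_zero, add_zero]
  exact hs'

/-- Job LOC. -/
theorem loc : Q30.FK.P_LOC.{u} := by
  intro k _ H _ _ _ C e he hX h0 hc m m' hmm hmm' hm hm'
  have := hmm.isPrime
  have := hmm'.isPrime
  exact hmm.eq_of_le hmm'.ne_top (le_of_origin C e he hX h0 hc m m' hm hm')

/-- Components of multiples of a homogeneous element. -/
theorem pr_smul_mem {k : Type} [Field k] {H : Type u} [CommRing H]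
    [Algebra (MvPolynomial (Fin 6) k) H]
    (C : Comp H) (e : Fin 6 → ℕ)
    (hX : ∀ i, C.pr (e i) (algebraMap (MvPolynomial (Fin 6) k) H (X i)) =
      algebraMap (MvPolynomial (Fin 6) k) H (X i))
    (h0 : ∀ c : k, C.pr 0 (algebraMap (MvPolynomial (Fin 6) k) H (MvPolynomial.C c)) =
      algebraMap (MvPolynomial (Fin 6) k) H (MvPolynomial.C c))
    (N : Submodule (MvPolynomial (Fin 6) k) H) {a : ℕ} {w : H} (hw : C.pr a w = w)
    (hwN : w ∈ N) (p : MvPolynomial (Fin 6) k) : ∀ n, C.pr n (p • w) ∈ N := by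
  induction p using MvPolynomial.induction_on with
  | C c =>
      intro n
      rw [Algebra.smul_def, pr_mul_ge C (h0 c) (Nat.zero_le n), Nat.sub_zero, ← hw, C.idem]
      split_ifs with h
      · rw [← Algebra.smul_def, hw]
        exact N.smul_mem _ hwN
      · rw [mul_zero]
        exact N.zero_mem
  | add p q hp hq =>
      intro n
      rw [add_smul, map_add]
      exact N.add_mem (hp n) (hq n)
  | mul_X p i hp =>
      intro n
      rw [mul_comm, mul_smul, Algebra.smul_def (X i)]
      by_cases h : e i ≤ n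
      · rw [pr_mul_ge C (hX i) h, ← Algebra.smul_def]
        exact N.smul_mem _ (hp _)
      · rw [C.mul_lt _ _ _ _ (hX i) (by omega)]
        exact N.zero_mem

/-- Job NAK. -/
theorem nak : Q30.FK.P_NAK.{u} := by
  classical
  intro k _ H _ _ C M _ _ _ f lam e he hX h0 hlam hpow hker
  obtain ⟨i0, N0, hN0, hl⟩ := hpow
  let P := MvPolynomial (Fin 6) k
  have h1 := pr_zero_one C h0
  have hlamN : C.pr N0 (lam ^ N0) = lam ^ N0 := by
    have := pow_hom C h1 hlam N0
    rwa [one_mul] at this
  -- generators modulo lam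
  have hfg : (LinearMap.range f).FG := IsNoetherian.noetherian _
  obtain ⟨S, hS⟩ := hfg
  have hlift : ∀ s ∈ S, ∃ x, f x = s := fun s hs => by
    have : s ∈ LinearMap.range f := hS ▸ Submodule.subset_span hs
    exact this
  choose! g hg using hlift
  let W0 : Finset H := S.image g
  have hgen0 : ∀ x, ∃ n ∈ Submodule.span (MvPolynomial (Fin 6) k) (W0 : Set H), ∃ y,
      x = n + lam * y := by
    intro x
    have hx : f x ∈ Submodule.span (MvPolynomial (Fin 6) k) (S : Set M) := by
      rw [hS]; exact ⟨x, rfl⟩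
    have hmap : Submodule.span (MvPolynomial (Fin 6) k) (S : Set M) ≤
        (Submodule.span (MvPolynomial (Fin 6) k) (W0 : Set H)).map f := by
      rw [Submodule.span_le]
      intro s hs
      refine ⟨g s, Submodule.subset_span ?_, hg s hs⟩
      exact Finset.mem_coe.mpr (Finset.mem_image_of_mem g hs)
    obtain ⟨n, hn, hfn⟩ := hmap hx
    obtain ⟨y, hy⟩ := hker (x - n) (by rw [map_sub, hfn, sub_self])
    exact ⟨n, hn, y, by rw [← hy]; abel⟩
  -- homogeneous generators
  choose D hD using C.sum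
  let W1 : Finset H := W0.biUnion fun w => (Finset.range (D w)).image fun n => C.pr n w
  have hW1hom : ∀ w ∈ W1, ∃ a, C.pr a w = w := by
    intro w hw
    simp only [W1, Finset.mem_biUnion, Finset.mem_image] at hw
    obtain ⟨v, -, n, -, rfl⟩ := hw
    exact ⟨n, by rw [C.idem, if_pos rfl]⟩
  have hgen1 : ∀ x, ∃ n ∈ Submodule.span (MvPolynomial (Fin 6) k) (W1 : Set H), ∃ y,
      x = n + lam * y := by
    intro x
    obtain ⟨n, hn, y, hy⟩ := hgen0 x
    refine ⟨n, ?_, y, hy⟩
    refine (Submodule.span_le.mpr ?_ :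
      Submodule.span (MvPolynomial (Fin 6) k) (W0 : Set H) ≤ _) hn
    intro w hw
    rw [SetLike.mem_coe, hD w]
    refine Submodule.sum_mem _ fun j hj => Submodule.subset_span ?_
    simp only [W1, Finset.coe_biUnion, Set.mem_iUnion, Finset.coe_image]
    exact ⟨w, hw, j, Finset.mem_coe.mpr hj, rfl⟩
  -- all the multiples by powers of lam
  let T : Finset H := (Finset.range N0).biUnion fun i => W1.image fun w => lam ^ i * w
  let M0 : Submodule (MvPolynomial (Fin 6) k) H :=
    Submodule.span (MvPolynomial (Fin 6) k) (T : Set H)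
  have hThom : ∀ w ∈ T, ∃ a, C.pr a w = w := by
    intro w hw
    simp only [T, Finset.mem_biUnion, Finset.mem_image] at hw
    obtain ⟨i, -, v, hv, rfl⟩ := hw
    obtain ⟨a, ha⟩ := hW1hom v hv
    have hi := pow_hom C h1 hlam i
    rw [one_mul] at hi
    exact ⟨i + a, by rw [C.mul _ _ _ _ hi, ha]⟩
  have hmulT : ∀ i < N0, ∀ n ∈ Submodule.span (MvPolynomial (Fin 6) k) (W1 : Set H),
      lam ^ i * n ∈ M0 := by
    intro i hi n hn
    have : Submodule.span (MvPolynomial (Fin 6) k) (W1 : Set H) ≤
        M0.comap (LinearMap.mulLeft (MvPolynomial (Fin 6) k) (lam ^ i)) := by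
      rw [Submodule.span_le]
      intro w hw
      refine Submodule.subset_span ?_
      simp only [T, Finset.coe_biUnion, Set.mem_iUnion, Finset.coe_image]
      exact ⟨i, Finset.mem_coe.mpr (Finset.mem_range.mpr hi), w, hw, rfl⟩
    exact this hn
  have hgen2 : ∀ i ≤ N0, ∀ x, ∃ n ∈ M0, ∃ y, x = n + lam ^ i * y := by
    intro i
    induction i with
    | zero => exact fun _ x => ⟨0, M0.zero_mem, x, by simp⟩
    | succ i ih =>
        intro hi x
        obtain ⟨n, hn, y, hy⟩ := ih (by omega) x
        obtain ⟨n', hn', y', hy'⟩ := hgen1 y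
        refine ⟨n + lam ^ i * n', M0.add_mem hn (hmulT i (by omega) n' hn'), y', ?_⟩
        rw [hy, hy']; ring
  -- closed under components
  have hclosed : ∀ x ∈ M0, ∀ n, C.pr n x ∈ M0 := by
    intro x hx
    refine Submodule.span_induction (p := fun x _ => ∀ n, C.pr n x ∈ M0) ?_ ?_ ?_ ?_ hx
    · intro w hw n
      obtain ⟨a, ha⟩ := hThom w hw
      have := pr_smul_mem C e hX h0 M0 ha (Submodule.subset_span hw) 1 n
      rwa [one_smul] at this
    · intro n
      rw [map_zero]; exact M0.zero_mem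
    · intro x y _ _ hx hy n
      rw [map_add]; exact M0.add_mem (hx n) (hy n)
    · intro p x _ hx n
      obtain ⟨N, hN⟩ := C.sum x
      rw [hN, Finset.smul_sum, map_sum]
      exact Submodule.sum_mem _ fun j _ =>
        pr_smul_mem C e hX h0 M0 (by rw [C.idem, if_pos rfl]) (hx j) p n
  have hhom : ∀ n x, C.pr n x = x → x ∈ M0 := by
    intro n
    induction n using Nat.strong_induction_on with
    | _ n ih =>
        intro x hx
        obtain ⟨m, hm, y, hy⟩ := hgen2 N0 le_rfl x
        by_cases h : N0 ≤ n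
        · have : x = C.pr n m + lam ^ N0 * C.pr (n - N0) y := by
            rw [← pr_mul_ge C hlamN h, ← map_add, ← hy, hx]
          rw [this]
          refine M0.add_mem (hclosed m hm n) ?_
          rw [hl, ← Algebra.smul_def]
          exact M0.smul_mem _ (ih (n - N0) (by omega) _ (by rw [C.idem, if_pos rfl]))
        · have : x = C.pr n m := by
            conv_lhs => rw [← hx, hy]
            rw [map_add, C.mul_lt _ _ _ _ hlamN (by omega), add_zero]
          rw [this]
          exact hclosed m hm n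
  refine ⟨⟨T, ?_⟩⟩
  rw [eq_top_iff]
  intro x _
  rw [hD x]
  exact Submodule.sum_mem _ fun j _ => hhom j _ (by rw [C.idem, if_pos rfl])

end Q23.FK
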