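import Pool.Agent.Q30.FK.Stm2

/-!
# The steps of the chain given by tori of rank one
-/

namespace Q23.FK

open Q30.FK Matrix

/-- The group algebra `A[s] / (s ^ 4 - 1)`. -/
@[ext] structure C4 (A : Type) where
  /-- The constant coefficient. -/
  c0 : A
  /-- The coefficient of `s`. -/
  c1 : A
  /-- The coefficient of `s ^ 2`. -/
  c2 : A
  /-- The coefficient of `s ^ 3`. -/
  c3 : A

namespace C4

variable {A B : Type} [CommRing A] [CommRing B]

instance : Zero (C4 A) := ⟨⟨0, 0, 0, 0⟩⟩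
instance : One (C4 A) := ⟨⟨1, 0, 0, 0⟩⟩
instance : Add (C4 A) := ⟨fun x y => ⟨x.c0 + y.c0, x.c1 + y.c1, x.c2 + y.c2, x.c3 + y.c3⟩⟩
instance : Neg (C4 A) := ⟨fun x => ⟨-x.c0, -x.c1, -x.c2, -x.c3⟩⟩
instance : Mul (C4 A) := ⟨fun x y =>
  ⟨x.c0 * y.c0 + x.c1 * y.c3 + x.c2 * y.c2 + x.c3 * y.c1,
  x.c0 * y.c1 + x.c1 * y.c0 + x.c2 * y.c3 + x.c3 * y.c2,
  x.c0 * y.c2 + x.c1 * y.c1 + x.c2 * y.c0 + x.c3 * y.c3,
  x.c0 * y.c3 + x.c1 * y.c2 + x.c2 * y.c1 + x.c3 * y.c0⟩⟩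

@[simp] theorem zero_c0 : (0 : C4 A).c0 = 0 := rfl
@[simp] theorem zero_c1 : (0 : C4 A).c1 = 0 := rfl
@[simp] theorem zero_c2 : (0 : C4 A).c2 = 0 := rfl
@[simp] theorem zero_c3 : (0 : C4 A).c3 = 0 := rfl
@[simp] theorem one_c0 : (1 : C4 A).c0 = 1 := rfl
@[simp] theorem one_c1 : (1 : C4 A).c1 = 0 := rfl
@[simp] theorem one_c2 : (1 : C4 A).c2 = 0 := rfl
@[simp] theorem one_c3 : (1 : C4 A).c3 = 0 := rfl
@[simp] theorem add_c0 (x y : C4 A) : (x + y).c0 = x.c0 + y.c0 := rfl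
@[simp] theorem add_c1 (x y : C4 A) : (x + y).c1 = x.c1 + y.c1 := rfl
@[simp] theorem add_c2 (x y : C4 A) : (x + y).c2 = x.c2 + y.c2 := rfl
@[simp] theorem add_c3 (x y : C4 A) : (x + y).c3 = x.c3 + y.c3 := rfl
@[simp] theorem neg_c0 (x : C4 A) : (-x).c0 = -x.c0 := rfl
@[simp] theorem neg_c1 (x : C4 A) : (-x).c1 = -x.c1 := rfl
@[simp] theorem neg_c2 (x : C4 A) : (-x).c2 = -x.c2 := rfl
@[simp] theorem neg_c3 (x : C4 A) : (-x).c3 = -x.c3 := rfl
@[simp] theorem mul_c0 (x y : C4 A) :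
    (x * y).c0 = x.c0 * y.c0 + x.c1 * y.c3 + x.c2 * y.c2 + x.c3 * y.c1 := rfl
@[simp] theorem mul_c1 (x y : C4 A) :
    (x * y).c1 = x.c0 * y.c1 + x.c1 * y.c0 + x.c2 * y.c3 + x.c3 * y.c2 := rfl
@[simp] theorem mul_c2 (x y : C4 A) :
    (x * y).c2 = x.c0 * y.c2 + x.c1 * y.c1 + x.c2 * y.c0 + x.c3 * y.c3 := rfl
@[simp] theorem mul_c3 (x y : C4 A) :
    (x * y).c3 = x.c0 * y.c3 + x.c1 * y.c2 + x.c2 * y.c1 + x.c3 * y.c0 := rfl

instance : CommRing (C4 A) where
  add_assoc x y z := by ext <;> simp <;> ring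
  zero_add x := by ext <;> simp
  add_zero x := by ext <;> simp
  add_comm x y := by ext <;> simp <;> ring
  neg_add_cancel x := by ext <;> simp
  left_distrib x y z := by ext <;> simp <;> ring
  right_distrib x y z := by ext <;> simp <;> ring
  zero_mul x := by ext <;> simp
  mul_zero x := by ext <;> simp
  mul_assoc x y z := by ext <;> simp <;> ring
  one_mul x := by ext <;> simp
  mul_one x := by ext <;> simp
  mul_comm x y := by ext <;> simp <;> ring
  nsmul := nsmulRec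
  zsmul := zsmulRec

/-- The constants. -/
def inc : A →+* C4 A where
  toFun a := ⟨a, 0, 0, 0⟩
  map_zero' := rfl
  map_one' := rfl
  map_add' a b := by ext <;> simp
  map_mul' a b := by ext <;> simp

theorem inc_apply (a : A) : inc a = ⟨a, 0, 0, 0⟩ := rfl

/-- The variable. -/
def xx : C4 A := ⟨0, 1, 0, 0⟩

theorem xx_two : (xx : C4 A) ^ 2 = ⟨0, 0, 1, 0⟩ := by
  rw [pow_two]
  ext <;> simp [xx]

theorem xx_three : (xx : C4 A) ^ 3 = ⟨0, 0, 0, 1⟩ := by
  rw [pow_succ, xx_two]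
  ext <;> simp [xx]

theorem xx_four : (xx : C4 A) ^ 4 = 1 := by
  rw [pow_succ, xx_three]
  ext <;> simp [xx]

theorem eq_sum (z : C4 A) :
    z = inc z.c0 + inc z.c1 * xx + inc z.c2 * xx ^ 2 + inc z.c3 * xx ^ 3 := by
  rw [xx_two, xx_three]
  ext <;> simp [xx, inc_apply]

/-- The homomorphism of rings given by the value of the variable. -/
def lift (φ : A →+* B) (y : B) (hy : y ^ 4 = 1) : C4 A →+* B where
  toFun z := φ z.c0 + φ z.c1 * y + φ z.c2 * y ^ 2 + φ z.c3 * y ^ 3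
  map_zero' := by simp
  map_one' := by simp
  map_add' z w := by
    simp only [add_c0, add_c1, add_c2, add_c3, map_add]
    ring
  map_mul' z w := by
    simp only [mul_c0, mul_c1, mul_c2, mul_c3, map_add, map_mul]
    linear_combination (-(φ z.c1 * φ w.c3 + φ z.c2 * φ w.c2 + φ z.c3 * φ w.c1) -
      (φ z.c2 * φ w.c3 + φ z.c3 * φ w.c2) * y - φ z.c3 * φ w.c3 * y ^ 2) * hy

theorem lift_apply (φ : A →+* B) (y : B) (hy : y ^ 4 = 1) (z : C4 A) :
    lift φ y hy z = φ z.c0 + φ z.c1 * y + φ z.c2 * y ^ 2 + φ z.c3 * y ^ 3 := rfl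

theorem lift_inc (φ : A →+* B) (y : B) (hy : y ^ 4 = 1) (a : A) :
    lift φ y hy (inc a) = φ a := by
  simp [lift_apply, inc_apply]

theorem lift_xx (φ : A →+* B) (y : B) (hy : y ^ 4 = 1) : lift φ y hy xx = y := by
  simp [lift_apply, xx]

/-- The constant coefficient as an additive map. -/
def cf0 : C4 A →+ A := ⟨⟨c0, rfl⟩, fun _ _ => rfl⟩

instance {k : Type} [Field k] [Algebra k A] : Algebra k (C4 A) :=
  (inc.comp (algebraMap k A)).toAlgebra

end C4

section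

variable {k : Type} [Field k]

/-- The algebra `A[s] / (s ^ 4 - 1)`. -/
def c4 (X : Alg k) : Alg k := ⟨C4 X.A⟩

/-- The constants. -/
def incB (X : Alg k) : X.A →ₐ[k] (c4 X).A :=
  { (C4.inc : X.A →+* C4 X.A) with commutes' := fun _ => rfl }

/-- The variable. -/
def xB (X : Alg k) : (c4 X).A := (C4.xx : C4 X.A)

theorem xB_four (X : Alg k) : xB X ^ 4 = 1 := C4.xx_four

/-- The constant coefficient. -/
def cfB (X : Alg k) : (c4 X).A →+ X.A := (C4.cf0 : C4 X.A →+ X.A)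

theorem cfB_inc (X : Alg k) (a : X.A) : cfB X (incB X a) = a := rfl

/-- The homomorphism given by the value of the variable. -/
def liftB {X Y : Alg k} (φ : X.A →ₐ[k] Y.A) (y : Y.A) (hy : y ^ 4 = 1) :
    (c4 X).A →ₐ[k] Y.A :=
  { (C4.lift (φ : X.A →+* Y.A) y hy : C4 X.A →+* Y.A) with
    commutes' := fun c => (C4.lift_inc (φ : X.A →+* Y.A) y hy _).trans (φ.commutes c) }

theorem liftB_inc {X Y : Alg k} (φ : X.A →ₐ[k] Y.A) (y : Y.A) (hy : y ^ 4 = 1) (a : X.A) :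
    liftB φ y hy (incB X a) = φ a := C4.lift_inc (φ : X.A →+* Y.A) y hy a

theorem liftB_x {X Y : Alg k} (φ : X.A →ₐ[k] Y.A) (y : Y.A) (hy : y ^ 4 = 1) :
    liftB φ y hy (xB X) = y := C4.lift_xx (φ : X.A →+* Y.A) y hy

/-- The substitution `s ↦ s r` does not change the constant coefficient. -/
theorem cfB_nat {X Y : Alg k} (φ : X.A →ₐ[k] Y.A) (r : Y.A)
    (hr : (xB Y * incB Y r) ^ 4 = 1) (z : (c4 X).A) :
    φ (cfB X z) = cfB Y (liftB ((incB Y).comp φ) (xB Y * incB Y r) hr z) := by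
  have e : liftB ((incB Y).comp φ) (xB Y * incB Y r) hr z =
      (⟨φ (C4.c0 z), φ (C4.c1 z) * r, φ (C4.c2 z) * r ^ 2, φ (C4.c3 z) * r ^ 3⟩ : C4 Y.A) := by
    have e1 : liftB ((incB Y).comp φ) (xB Y * incB Y r) hr z =
        (C4.inc (φ (C4.c0 z)) + C4.inc (φ (C4.c1 z)) * (C4.xx * C4.inc r) +
          C4.inc (φ (C4.c2 z)) * (C4.xx * C4.inc r) ^ 2 +
          C4.inc (φ (C4.c3 z)) * (C4.xx * C4.inc r) ^ 3 : C4 Y.A) := rfl
    rw [e1, C4.eq_sum (⟨φ (C4.c0 z), φ (C4.c1 z) * r, φ (C4.c2 z) * r ^ 2,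
      φ (C4.c3 z) * r ^ 3⟩ : C4 Y.A)]
    dsimp only
    rw [map_mul C4.inc, map_mul C4.inc, map_mul C4.inc, map_pow C4.inc, map_pow C4.inc]
    ring_nf
  rw [e]
  rfl

end

section

variable (k : Type) [Field k] [CharP k 2]

/-- A natural family of elements of the group whose parameter satisfies `s ^ 4 = 1`. -/
structure Loop where
  /-- The element of the parameter `s`. -/
  h : ∀ (X : Alg k) (s : X.A), s ^ 4 = 1 → Bor X
  /-- Naturality. -/
  nat : ∀ (X Y : Alg k) (φ : X.A →ₐ[k] Y.A) (x : X.A) (hx : x ^ 4 = 1) (hy : φ x ^ 4 = 1),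
    Bor.map φ (h X x hx) = h Y (φ x) hy

variable {k}

/-- The translate of a sequence by the generic element of the family. -/
def Loop.tg (p : Loop k) (X : Alg k) (g : ℕ → Bor X) : ℕ → Bor (c4 X) :=
  fun i => p.h (c4 X) (xB X) (xB_four X) * Bor.map (incB X) (g i)

theorem Loop.map_tg (p : Loop k) {X Y : Alg k} (φ : X.A →ₐ[k] Y.A) (y : Y.A) (hy : y ^ 4 = 1)
    (g : ℕ → Bor X) (i : ℕ) :
    Bor.map (liftB φ y hy) (p.tg X g i) = p.h Y y hy * Bor.map φ (g i) := by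
  unfold Loop.tg
  rw [map_mul, bor_map_comp, p.nat _ _ (liftB φ y hy) _ _ (by rw [liftB_x]; exact hy)]
  congr 1
  · simp only [liftB_x]
  · congr 2
    ext a
    exact liftB_inc φ y hy a

/-- The constant coefficient of the translation of a cochain. -/
def pj (p : Loop k) : Ch k →+ Ch k where
  toFun F := ⟨fun X n g => cfB X (F.1 (c4 X) n (p.tg X g)), by
    obtain ⟨F, F1, F2, N, F3⟩ := F
    refine ⟨?_, ?_, N, ?_⟩
    · intro X Y φ n g
      have h1 : (xB Y * incB Y 1) ^ 4 = 1 := by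
        rw [map_one, mul_one]
        exact xB_four Y
      rw [cfB_nat φ 1 h1, F1]
      congr 2
      funext i
      rw [p.map_tg]
      unfold Loop.tg
      congr 1
      congr 1
      rw [map_one, mul_one]
    · intro X n g g' h
      refine congrArg (cfB X) (F2 (c4 X) n _ _ (fun i hi => ?_))
      unfold Loop.tg
      rw [h i hi]
    · intro n hn X g
      change cfB X (F (c4 X) n (p.tg X g)) = 0
      rw [F3 n hn, map_zero]⟩
  map_zero' := ch_ext (fun X n g => map_zero (cfB X))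
  map_add' F G := ch_ext (fun X n g => map_add (cfB X) (F.1 (c4 X) n (p.tg X g))
    (G.1 (c4 X) n (p.tg X g)))

theorem pj_apply (p : Loop k) (F : Ch k) (X : Alg k) (n : ℕ) (g : ℕ → Bor X) :
    (pj p F).1 X n g = cfB X (F.1 (c4 X) n (p.tg X g)) := rfl

theorem pj_dCh (p : Loop k) (F : Ch k) : dCh (pj p F) = pj p (dCh F) := by
  refine ch_ext (fun X n g => ?_)
  cases n with
  | zero => exact (map_zero (cfB X)).symm
  | succ n =>
    rw [dCh_succ, pj_apply, dCh_succ, map_sum]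
    refine Finset.sum_congr rfl (fun l _ => ?_)
    rw [pj_apply]
    refine congrArg (fun s => cfB X (F.1 (c4 X) n s)) ?_
    funext i
    unfold Loop.tg Ser.skip
    split_ifs <;> rfl

/-- A cochain which is invariant under `E` and under the family is not changed. -/
theorem pj_fix (p : Loop k) {E : ∀ X : Alg k, Set (Bor X)}
    (hE : ∀ (X : Alg k) (s : X.A) (hs : s ^ 4 = 1), p.h X s hs ∈ E X) {F : Ch k}
    (hF : F ∈ inv k E) : pj p F = F := by
  refine ch_ext (fun X n g => ?_)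
  rw [pj_apply]
  have h1 : F.1 (c4 X) n (p.tg X g) = F.1 (c4 X) n (fun i => Bor.map (incB X) (g i)) :=
    hF (c4 X) _ (hE _ _ _) n _
  rw [h1, ← F.2.1 X (c4 X) (incB X) n g, cfB_inc]

/-- The image is invariant under the products of the elements of `E` and of the family. -/
theorem pj_mem (p : Loop k) {E E' : ∀ X : Alg k, Set (Bor X)}
    (hE : ∀ (X : Alg k), ∀ h ∈ E' X, ∃ r : X.A, ∃ hr : (xB X * incB X r) ^ 4 = 1,
      ∃ e ∈ E (c4 X), p.h (c4 X) (xB X) (xB_four X) * Bor.map (incB X) h =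
        e * p.h (c4 X) (xB X * incB X r) hr) {F : Ch k}
    (hF : F ∈ inv k E) : pj p F ∈ inv k E' := by
  intro X h hh n g
  obtain ⟨r, hr, e, he, h1⟩ := hE X h hh
  rw [pj_apply, pj_apply]
  have h2 : p.tg X (fun i => h * g i) =
      fun i => e * (p.h (c4 X) (xB X * incB X r) hr * Bor.map (incB X) (g i)) := by
    funext i
    unfold Loop.tg
    rw [map_mul, ← mul_assoc, h1, mul_assoc]
  rw [h2, hF (c4 X) e he]
  have h3 := cfB_nat (AlgHom.id k X.A) r hr (F.1 (c4 X) n (p.tg X g))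
  have h4 : cfB X (F.1 (c4 X) n (p.tg X g)) = (AlgHom.id k X.A) (cfB X (F.1 (c4 X) n (p.tg X g))) :=
    rfl
  rw [h4, h3, F.2.1]
  refine congrArg (fun s => cfB X (F.1 (c4 X) n s)) (funext (fun i => ?_))
  rw [p.map_tg]
  rfl

end

section

variable {k : Type} [Field k] [CharP k 2]

theorem tt_entries {X : Alg k} (s t : X.A) (hs : s ^ 4 = 1) (ht : t ^ 4 = 1) :
    (tt s t hs ht).1 0 0 = s ∧ (tt s t hs ht).1 1 1 = s ^ 3 * t ∧ (tt s t hs ht).1 2 2 = t ^ 3 ∧
      (tt s t hs ht).1 0 1 = 0 ∧ (tt s t hs ht).1 0 2 = 0 ∧ (tt s t hs ht).1 1 2 = 0 :=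
  ⟨rfl, rfl, rfl, rfl, rfl, rfl⟩

theorem tt_mul {X : Alg k} (s t s' t' : X.A) (hs : s ^ 4 = 1) (ht : t ^ 4 = 1)
    (hs' : s' ^ 4 = 1) (ht' : t' ^ 4 = 1) (hs'' : (s * s') ^ 4 = 1) (ht'' : (t * t') ^ 4 = 1) :
    tt s t hs ht * tt s' t' hs' ht' = tt (s * s') (t * t') hs'' ht'' := by
  have h1 := tt_entries s t hs ht
  have h2 := tt_entries s' t' hs' ht'
  have h3 := tt_entries (s * s') (t * t') hs'' ht''
  refine bor_ext (fun i j => ?_)
  fin_cases i <;> fin_cases j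
  · change (tt s t hs ht * tt s' t' hs' ht').1 0 0 = (tt (s * s') (t * t') hs'' ht'').1 0 0
    rw [mul00, h1.1, h2.1, h3.1]
  · change (tt s t hs ht * tt s' t' hs' ht').1 0 1 = (tt (s * s') (t * t') hs'' ht'').1 0 1
    rw [mul01, h1.2.2.2.1, h2.2.2.2.1, h3.2.2.2.1]
    ring
  · change (tt s t hs ht * tt s' t' hs' ht').1 0 2 = (tt (s * s') (t * t') hs'' ht'').1 0 2
    rw [mul02, h1.2.2.2.1, h2.2.2.2.2.1, h3.2.2.2.2.1, h1.2.2.2.2.1]
    ring
  · change (tt s t hs ht * tt s' t' hs' ht').1 1 0 = (tt (s * s') (t * t') hs'' ht'').1 1 0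
    rw [b10, b10]
  · change (tt s t hs ht * tt s' t' hs' ht').1 1 1 = (tt (s * s') (t * t') hs'' ht'').1 1 1
    rw [mul11, h1.2.1, h2.2.1, h3.2.1]
    ring
  · change (tt s t hs ht * tt s' t' hs' ht').1 1 2 = (tt (s * s') (t * t') hs'' ht'').1 1 2
    rw [mul12, h1.2.2.2.2.2, h2.2.2.2.2.2, h3.2.2.2.2.2]
    ring
  · change (tt s t hs ht * tt s' t' hs' ht').1 2 0 = (tt (s * s') (t * t') hs'' ht'').1 2 0
    rw [b20, b20]
  · change (tt s t hs ht * tt s' t' hs' ht').1 2 1 = (tt (s * s') (t * t') hs'' ht'').1 2 1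
    rw [b21, b21]
  · change (tt s t hs ht * tt s' t' hs' ht').1 2 2 = (tt (s * s') (t * t') hs'' ht'').1 2 2
    rw [mul22, h1.2.2.1, h2.2.2.1, h3.2.2.1]
    ring

theorem tt_one {X : Alg k} (s t : X.A) (hs : s ^ 4 = 1) (ht : t ^ 4 = 1) (h1 : s = 1)
    (h2 : t = 1) : tt s t hs ht = 1 := by
  subst h1
  subst h2
  refine bor_ext (fun i j => ?_)
  fin_cases i <;> fin_cases j
  · rfl
  · rfl
  · rfl
  · rfl
  · exact (by ring : (1 : X.A) ^ 3 * 1 = 1)
  · rfl
  · rfl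
  · rfl
  · exact (by ring : (1 : X.A) ^ 3 = 1)

theorem bor_det {X : Alg k} (h : Bor X) : h.1 0 0 * h.1 1 1 * h.1 2 2 = 1 := by
  have e := h.1.2
  rw [Matrix.det_fin_three] at e
  have e10 : (h.1.1 : Matrix (Fin 3) (Fin 3) X.A) 1 0 = 0 := b10 h
  have e20 : (h.1.1 : Matrix (Fin 3) (Fin 3) X.A) 2 0 = 0 := b20 h
  have e21 : (h.1.1 : Matrix (Fin 3) (Fin 3) X.A) 2 1 = 0 := b21 h
  rw [e10, e20, e21] at e
  change h.1.1 0 0 * h.1.1 1 1 * h.1.1 2 2 = 1
  linear_combination e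

variable (k)

/-- The first torus. -/
def lp6 : Loop k where
  h X s hs := tt s 1 hs (one_pow 4)
  nat X Y φ x hx hy := by
    refine bor_ext (fun i j => ?_)
    rw [map_entry]
    fin_cases i <;> fin_cases j
    · rfl
    · exact map_zero φ
    · exact map_zero φ
    · exact map_zero φ
    · change φ (x ^ 3 * 1) = φ x ^ 3 * 1
      rw [map_mul, map_pow, map_one]
    · exact map_zero φ
    · exact map_zero φ
    · exact map_zero φ
    · change φ (1 ^ 3) = 1 ^ 3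
      rw [map_pow, map_one]

/-- The second torus. -/
def lp7 : Loop k where
  h X s hs := tt 1 s (one_pow 4) hs
  nat X Y φ x hx hy := by
    refine bor_ext (fun i j => ?_)
    rw [map_entry]
    fin_cases i <;> fin_cases j
    · exact map_one φ
    · exact map_zero φ
    · exact map_zero φ
    · exact map_zero φ
    · change φ (1 ^ 3 * x) = 1 ^ 3 * φ x
      rw [map_mul, map_pow, map_one]
    · exact map_zero φ
    · exact map_zero φ
    · exact map_zero φ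
    · change φ (x ^ 3) = φ x ^ 3
      rw [map_pow]

end

theorem tor6 : P_TOR 6 := by
  intro k _ _
  refine ⟨pj (lp6 k), ?_, ?_, fun F => pj_dCh (lp6 k) F⟩
  · intro F hF
    refine pj_mem (lp6 k) ?_ hF
    intro X h hh
    have hh2 : h.1 2 2 = 1 := hh
    have hd := bor_det h
    rw [hh2, mul_one] at hd
    have hr : (xB X * incB X (h.1 0 0)) ^ 4 = 1 := by
      rw [mul_pow, xB_four, one_mul, ← map_pow, b00, map_one]
    have hr3 : ((xB X * incB X (h.1 0 0)) ^ 3) ^ 4 = 1 := by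
      rw [← pow_mul, mul_comm 3 4, pow_mul, hr, one_pow]
    refine ⟨h.1 0 0, hr, (lp6 k).h (c4 X) (xB X) (xB_four X) * Bor.map (incB X) h *
      (lp6 k).h (c4 X) ((xB X * incB X (h.1 0 0)) ^ 3) hr3, ?_, ?_⟩
    · have e1 := tt_entries (xB X) 1 (xB_four X) (one_pow 4)
      have e2 := tt_entries ((xB X * incB X (h.1 0 0)) ^ 3) 1 hr3 (one_pow 4)
      refine ⟨?_, ?_, ?_⟩
      · change (tt (xB X) 1 (xB_four X) (one_pow 4) * Bor.map (incB X) h *
          tt ((xB X * incB X (h.1 0 0)) ^ 3) 1 hr3 (one_pow 4)).1 0 0 = 1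
        rw [mul00, mul00, e1.1, e2.1, map_entry]
        linear_combination hr
      · change (tt (xB X) 1 (xB_four X) (one_pow 4) * Bor.map (incB X) h *
          tt ((xB X * incB X (h.1 0 0)) ^ 3) 1 hr3 (one_pow 4)).1 1 1 = 1
        rw [mul11, mul11, e1.2.1, e2.2.1, map_entry]
        have hd' : incB X (h.1 0 0) * incB X (h.1 1 1) = 1 := by
          rw [← map_mul, hd, map_one]
        have hx := xB_four X
        have h0 : incB X (h.1 0 0) ^ 4 = 1 := by rw [← map_pow, b00, map_one]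
        calc xB X ^ 3 * 1 * incB X (h.1 1 1) * (((xB X * incB X (h.1 0 0)) ^ 3) ^ 3 * 1)
            = (xB X ^ 4) ^ 3 * (incB X (h.1 0 0) * incB X (h.1 1 1)) *
              (incB X (h.1 0 0) ^ 4) ^ 2 := by ring
          _ = 1 := by rw [hx, hd', h0]; ring
      · change (tt (xB X) 1 (xB_four X) (one_pow 4) * Bor.map (incB X) h *
          tt ((xB X * incB X (h.1 0 0)) ^ 3) 1 hr3 (one_pow 4)).1 2 2 = 1
        rw [mul22, mul22, e1.2.2.1, e2.2.2.1, map_entry, hh2, map_one]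
        ring
    · rw [mul_assoc]
      change _ = tt (xB X) 1 (xB_four X) (one_pow 4) * Bor.map (incB X) h *
        (tt ((xB X * incB X (h.1 0 0)) ^ 3) 1 hr3 (one_pow 4) *
          tt (xB X * incB X (h.1 0 0)) 1 hr (one_pow 4))
      have hp : (xB X * incB X (h.1 0 0)) ^ 3 * (xB X * incB X (h.1 0 0)) = 1 := by
        rw [← pow_succ]
        exact hr
      rw [tt_mul _ _ _ _ _ _ _ _ (by rw [hp, one_pow]) (by rw [mul_one, one_pow]),
        tt_one _ _ _ _ hp (mul_one 1), mul_one]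
      rfl
  · intro F hF
    refine pj_fix (lp6 k) ?_ hF
    intro X s hs
    change (tt s 1 hs (one_pow 4)).1 2 2 = 1
    rw [(tt_entries s 1 hs (one_pow 4)).2.2.1, one_pow]

theorem tor7 : P_TOR 7 := by
  intro k _ _
  refine ⟨pj (lp7 k), ?_, ?_, fun F => pj_dCh (lp7 k) F⟩
  · intro F hF
    refine pj_mem (lp7 k) ?_ hF
    intro X h _
    have h22 : incB X (h.1 2 2) ^ 4 = 1 := by rw [← map_pow, b22, map_one]
    have hr : (xB X * incB X (h.1 2 2 ^ 3)) ^ 4 = 1 := by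
      rw [mul_pow, xB_four, one_mul, map_pow, ← pow_mul, mul_comm 3 4, pow_mul, h22, one_pow]
    have hr3 : ((xB X * incB X (h.1 2 2 ^ 3)) ^ 3) ^ 4 = 1 := by
      rw [← pow_mul, mul_comm 3 4, pow_mul, hr, one_pow]
    refine ⟨h.1 2 2 ^ 3, hr, (lp7 k).h (c4 X) (xB X) (xB_four X) * Bor.map (incB X) h *
      (lp7 k).h (c4 X) ((xB X * incB X (h.1 2 2 ^ 3)) ^ 3) hr3, ?_, ?_⟩
    · have e1 := tt_entries 1 (xB X) (one_pow 4) (xB_four X)
      have e2 := tt_entries 1 ((xB X * incB X (h.1 2 2 ^ 3)) ^ 3) (one_pow 4) hr3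
      change (tt 1 (xB X) (one_pow 4) (xB_four X) * Bor.map (incB X) h *
        tt 1 ((xB X * incB X (h.1 2 2 ^ 3)) ^ 3) (one_pow 4) hr3).1 2 2 = 1
      rw [mul22, mul22, e1.2.2.1, e2.2.2.1, map_entry, map_pow]
      have hx := xB_four X
      calc xB X ^ 3 * incB X (h.1 2 2) * ((xB X * incB X (h.1 2 2) ^ 3) ^ 3) ^ 3
          = (xB X ^ 4) ^ 3 * (incB X (h.1 2 2) ^ 4) ^ 7 := by ring
        _ = 1 := by rw [hx, h22]; ring
    · rw [mul_assoc]
      change _ = tt 1 (xB X) (one_pow 4) (xB_four X) * Bor.map (incB X) h *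
        (tt 1 ((xB X * incB X (h.1 2 2 ^ 3)) ^ 3) (one_pow 4) hr3 *
          tt 1 (xB X * incB X (h.1 2 2 ^ 3)) (one_pow 4) hr)
      have hp : (xB X * incB X (h.1 2 2 ^ 3)) ^ 3 * (xB X * incB X (h.1 2 2 ^ 3)) = 1 := by
        rw [← pow_succ]
        exact hr
      rw [tt_mul _ _ _ _ _ _ _ _ (by rw [mul_one, one_pow]) (by rw [hp, one_pow]),
        tt_one _ _ _ _ (mul_one 1) hp, mul_one]
      rfl
  · intro F hF
    exact pj_fix (lp7 k) (fun X s hs => Set.mem_univ _) hF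

end Q23.FK
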